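import Pool.Agent.helper4.NF.SpecA

/-!
# Module EXB of project nf: (MP_4467b5_nt)
-/

set_option autoImplicit false

open Complex MeasureTheory

namespace Pool.Agent.NF

open Pool.Agent.helper84.DM Pool.Agent.helper78.ED Pool.Agent.DH Pool.Agent.ZD

theorem EXB_EE (X : ℝ) (M : ℕ) : Continuous (EE X M) := by
  have hee : Continuous ee := by
    unfold ee
    fun_prop
  unfold EE
  refine continuous_const.mul (continuous_finsetSum _ fun m _ => ?_)
  refine hee.comp ?_
  fun_prop

theorem EXB_exp_large (x : ℝ) (h : 5 < x) : 64 < Real.exp x := by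
  have h7 : Real.exp 1 ^ 5 ≤ Real.exp x := by
    rw [← Real.exp_nat_mul]
    exact Real.exp_le_exp.2 (by push_cast; linarith)
  have h8 : (2.7182818283 : ℝ) ^ 5 ≤ Real.exp 1 ^ 5 :=
    pow_le_pow_left₀ (by norm_num) Real.exp_one_gt_d9.le 5
  have h9 : (64 : ℝ) < 2.7182818283 ^ 5 := by norm_num
  linarith

theorem EXB_exp_small (x : ℝ) (h : x < -5) : Real.exp x < 1 / 2 := by
  have h7 : Real.exp x ≤ Real.exp (-1) := Real.exp_le_exp.2 (by linarith)
  have h8 : Real.exp (-1) < 1 / 2 := by
    rw [Real.exp_neg, inv_eq_one_div]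
    exact one_div_lt_one_div_of_lt (by norm_num) (by linarith [Real.exp_one_gt_d9])
  linarith

theorem EXB_log (hPHS : PHS_stmt) : SR PhL := by
  obtain ⟨hc, -, -, -, hlo, hhi⟩ := hPHS
  refine ⟨?_, ?_⟩
  · have h1 : ContDiff ℝ (⊤ : ℕ∞) PhL := by
      rw [contDiff_iff_contDiffAt]
      intro y
      by_cases hy : y = 0
      · have h2 : PhL =ᶠ[nhds y] fun _ => 0 := by
          filter_upwards [Iio_mem_nhds (show y < 1 / 2 by rw [hy]; norm_num)] with z hz
          unfold PhL
          rw [hlo z (le_of_lt hz), zero_mul]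
        exact contDiffAt_const.congr_of_eventuallyEq h2
      · exact hc.contDiffAt.mul (Real.contDiffAt_log.2 hy)
    exact Complex.ofRealCLM.contDiff.comp h1
  · intro x hx
    have h0 : Phi x = 0 := by
      rcases hx with hx | hx
      · exact hlo x hx.le
      · exact hhi x hx.le
    simp only [PhL, h0, zero_mul, Complex.ofReal_zero]

theorem EXB (hPHS : PHS_stmt) (hGEC : GEC_stmt) : EXB_stmt := by
  refine ⟨hPHS.2.1, EXB_log hPHS, ?_, ?_, ?_, ?_⟩
  · intro X M x
    rfl
  · intro X M u
    rw [(hGEC X M).2.2 u]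
    unfold BW
    refine integral_congr_ae (Filter.Eventually.of_forall fun x => ?_)
    show GW Phi X M x * ex (-(u * x)) = GE X M x * Complex.exp (-(((u * x : ℝ) : ℂ) * I))
    have h1 : GW Phi X M x = GE X M x := rfl
    rw [h1]
    unfold ex
    congr 2
    push_cast
    ring
  · intro X M x
    unfold GW PhL
    rw [Real.log_exp]
    push_cast
    ring
  · intro g hg X M
    have hgc : Continuous g := by
      have h1 := Complex.continuous_re.comp hg.1.continuous
      exact h1
    refine ⟨?_, ?_⟩
    · unfold GW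
      refine (Complex.continuous_ofReal.comp ?_).mul (EXB_EE X M)
      exact (hgc.comp Real.continuous_exp).mul Real.continuous_exp
    · intro x hx
      have h0 : ((g (Real.exp x) : ℝ) : ℂ) = 0 := by
        refine hg.2 (Real.exp x) ?_
        rcases lt_abs.1 hx with h5 | h5
        · exact Or.inr (EXB_exp_large x h5)
        · exact Or.inl (EXB_exp_small x (by linarith))
      have h1 : g (Real.exp x) = 0 := by exact_mod_cast h0
      unfold GW
      rw [h1, zero_mul, Complex.ofReal_zero, zero_mul]

end Pool.Agent.NF
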